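import Pool.Agent.helper53.ORE.Spec

/-!
# Row CNO (project ore): centralisers of `OmQ Q` modulo scalars
-/

set_option autoImplicit false

namespace Pool.Agent.ORE

open Module Pool.Agent.GS

/-- a nonzero vector orthogonal to four given vectors -/
theorem CNO_four {F V : Type} [Field F] [AddCommGroup V] [Module F V] [FiniteDimensional F V]
    (B : LinearMap.BilinForm F V) (hn : 5 ≤ finrank F V) (x : Fin 4 → V) :
    ∃ w : V, w ≠ 0 ∧ ∀ i, B w (x i) = 0 := by
  let f : V →ₗ[F] (Fin 4 → F) := LinearMap.pi fun i => B.flip (x i)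
  have h : LinearMap.ker f ≠ ⊥ := by
    apply LinearMap.ker_ne_bot_of_finrank_lt
    rw [finrank_fin_fun]
    omega
  obtain ⟨w, hw, hw0⟩ := (Submodule.ne_bot_iff _).1 h
  refine ⟨w, hw0, fun i => ?_⟩
  have h1 : f w = 0 := hw
  have h2 := congrFun h1 i
  simpa [f] using h2

theorem CNO_rqrq {F V : Type} [Field F] [AddCommGroup V] [Module F V]
    {Q : QuadraticForm F V} (h2 : (2 : F) = 0) {a b : V} (ha : Q a ≠ 0) (hb : Q b ≠ 0)
    (hab : pb Q a b = 0) (v : V) :
    (rq Q a * rq Q b) v = v + (pb Q v b / Q b) • b + (pb Q v a / Q a) • a := by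
  have hba : pb Q b a = 0 := by rw [pb_symm, hab]
  rw [Equiv.Perm.mul_apply, rq_apply h2 hb, rq_apply h2 ha, map_add, LinearMap.add_apply, map_smul,
    LinearMap.smul_apply, hba, smul_zero, add_zero]

/-- step 1 -/
theorem CNO_plane (rp : RP_stmt) {F V : Type} [Field F] [Finite F] [AddCommGroup V] [Module F V]
    [FiniteDimensional F V] (Q : QuadraticForm F V) (h2 : (2 : F) = 0) (hN : Nd Q)
    (hn : 8 ≤ finrank F V) (z : Equiv.Perm V) (hz : z ∈ OQ Q)
    (hc : ∀ g ∈ OmQ Q, ∃ c : F, ∀ v, (z * g * z⁻¹ * g⁻¹) v = c • v)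
    (a b u : V) (ha : Q a ≠ 0) (hb : Q b ≠ 0) (hab : pb Q a b = 0) (hub : pb Q u b = 0)
    (hua : pb Q u a = Q a) :
    z a = (pb Q (z u) b / Q b) • b + (pb Q (z u) a / Q a) • a := by
  have hg := rp Q h2 hN hn a b ha hb
  obtain ⟨c, hcc⟩ := hc _ hg
  have hza : Q (z a) ≠ 0 := by rw [hz.2]; exact ha
  have hzb : Q (z b) ≠ 0 := by rw [hz.2]; exact hb
  have hzab : pb Q (z a) (z b) = 0 := by rw [OQ_pb hz]; exact hab
  have hconj : z * (rq Q a * rq Q b) * z⁻¹ = rq Q (z a) * rq Q (z b) := by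
    rw [← rq_conj_mem hz, ← rq_conj_mem hz]
    group
  have key : ∀ w, (rq Q (z a) * rq Q (z b)) w = c • (rq Q a * rq Q b) w := by
    intro w
    have h := hcc ((rq Q a * rq Q b) w)
    rw [Equiv.Perm.mul_apply, hconj, invp] at h
    exact h
  obtain ⟨w, hw0, hw⟩ := CNO_four (pb Q) (by omega) ![a, b, z a, z b]
  have hwa : pb Q w a = 0 := hw 0
  have hwb : pb Q w b = 0 := hw 1
  have hwza : pb Q w (z a) = 0 := hw 2
  have hwzb : pb Q w (z b) = 0 := hw 3
  have h1 := key w
  rw [CNO_rqrq h2 hza hzb hzab, CNO_rqrq h2 ha hb hab, hwa, hwb, hwza, hwzb] at h1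
  simp only [zero_div, zero_smul, add_zero] at h1
  have hc1 : c = 1 := by
    by_contra hne
    apply hw0
    have h3 : (1 - c) • w = 0 := by rw [sub_smul, one_smul, ← h1, sub_self]
    rcases smul_eq_zero.1 h3 with h4 | h4
    · exact absurd (sub_eq_zero.1 h4).symm hne
    · exact h4
  have h5 := key (z u)
  rw [hc1, one_smul, CNO_rqrq h2 hza hzb hzab, CNO_rqrq h2 ha hb hab, OQ_pb hz, OQ_pb hz, hub, hua,
    hz.2 a, div_self ha, zero_div, zero_smul, add_zero, one_smul, add_assoc] at h5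
  exact add_left_cancel h5

theorem CNO (rp : RP_stmt) (ns : NSV_stmt) : CNO_stmt := by
  intro F V _ _ _ _ _ Q h2 hN hn z hz hc
  have hfix : ∀ a : V, Q a ≠ 0 → z a = a := by
    intro a ha
    have ha0 : a ≠ 0 := by
      intro h
      rw [h, Q_zero] at ha
      exact ha rfl
    obtain ⟨u, hua⟩ : ∃ u, pb Q u a = Q a := by
      by_contra hne
      apply ha0
      apply hN
      intro y
      by_contra hy
      apply hne
      refine ⟨(Q a / pb Q y a) • y, ?_⟩
      have hy' : pb Q y a ≠ 0 := by rw [pb_symm]; exact hy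
      rw [map_smul, LinearMap.smul_apply, smul_eq_mul, div_mul_cancel₀ _ hy']
    obtain ⟨b, hb1, hb2⟩ := ns Q h2 hN 2 ![a, u] (by omega)
    have hba : pb Q b a = 0 := hb1 0
    have hbu : pb Q b u = 0 := hb1 1
    have hb0 : Q b ≠ 0 := by rw [hb2]; exact one_ne_zero
    have hbn : b ≠ 0 := by
      intro h
      rw [h, Q_zero] at hb0
      exact hb0 rfl
    obtain ⟨t, htb⟩ : ∃ t, pb Q t b = 1 := by
      by_contra hne
      apply hbn
      apply hN
      intro y
      by_contra hy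
      apply hne
      have hy' : pb Q y b ≠ 0 := by rw [pb_symm]; exact hy
      refine ⟨(pb Q y b)⁻¹ • y, ?_⟩
      rw [map_smul, LinearMap.smul_apply, smul_eq_mul, inv_mul_cancel₀ hy']
    obtain ⟨s, hsb, hsa⟩ : ∃ s, pb Q s b = 1 ∧ pb Q s a = 0 := by
      refine ⟨t - (pb Q t a / Q a) • u, ?_, ?_⟩
      · rw [map_sub, LinearMap.sub_apply, map_smul, LinearMap.smul_apply, pb_symm Q u b, hbu,
          smul_zero, sub_zero, htb]
      · rw [map_sub, LinearMap.sub_apply, map_smul, LinearMap.smul_apply, hua, smul_eq_mul,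
          div_mul_cancel₀ _ ha, sub_self]
    obtain ⟨e, he1, he2⟩ := ns Q h2 hN 3 ![a, u, s] (by omega)
    have hea : pb Q e a = 0 := he1 0
    have heu : pb Q e u = 0 := he1 1
    have hes : pb Q e s = 0 := he1 2
    have he0 : Q e ≠ 0 := by rw [he2]; exact one_ne_zero
    have h3 := CNO_plane rp Q h2 hN hn z hz hc a b u ha hb0 (by rw [pb_symm, hba])
      (by rw [pb_symm, hbu]) hua
    have h4 := CNO_plane rp Q h2 hN hn z hz hc a e u ha he0 (by rw [pb_symm, hea])
      (by rw [pb_symm, heu]) hua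
    have h5 : pb Q s (z a) = 0 := by
      rw [h4, map_add, map_smul, map_smul, pb_symm Q s e, hes, hsa, smul_zero, smul_zero, add_zero]
    have h6 : pb Q (z u) b / Q b = 0 := by
      rw [h3, map_add, map_smul, map_smul, hsb, hsa, smul_zero, add_zero, smul_eq_mul, mul_one] at h5
      exact h5
    rw [h6, zero_smul, zero_add] at h3
    have h7 : Q (z a) = Q a := hz.2 a
    rw [h3, Q_smul] at h7
    have h8 : (pb Q (z u) a / Q a) ^ 2 = 1 := by
      have := mul_right_cancel₀ ha (h7.trans (one_mul (Q a)).symm)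
      exact this
    have h9 : pb Q (z u) a / Q a = 1 := by
      have h10 : (pb Q (z u) a / Q a - 1) ^ 2 = 0 := by
        linear_combination h8 - (pb Q (z u) a / Q a - 1) * h2
      exact sub_eq_zero.1 (pow_eq_zero_iff (two_ne_zero) |>.1 h10)
    rw [h9, one_smul] at h3
    exact h3
  ext v
  rw [Equiv.Perm.one_apply]
  by_cases hv : Q v ≠ 0
  · exact hfix v hv
  rw [not_not] at hv
  obtain ⟨g, hg1, hg2⟩ := ns Q h2 hN 1 ![v] (by omega)
  have hgv : pb Q g v = 0 := hg1 0
  have hg0 : Q g ≠ 0 := by rw [hg2]; exact one_ne_zero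
  have h3 : Q (v + g) ≠ 0 := by
    rw [Q_add, hv, hg2, pb_symm, hgv, zero_add, add_zero]
    exact one_ne_zero
  have h4 := hfix _ h3
  rw [hz.1.1, hfix g hg0] at h4
  exact add_right_cancel h4

end Pool.Agent.ORE
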